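import Mathlib

set_option autoImplicit false

/-!
# Midpoint veto interval graphs of every chromatic number

For every `t` with `0 < t < 1` and every `k` there is a finite graph of chromatic number `k` which is
represented by veto intervals `(l, v, r)` all of whose veto marks divide the interval in the same
ratio, `v = (1 - t) l + t r`; for `t = 1/2` all veto marks are midpoints.

The shift graph on the pairs `i < j` of `{0, ..., N - 1}` (where `(i, j)` and `(j, k)` are adjacent)
is represented by the intervals `[M ^ i, M ^ j + 1]` for a large `M` depending on `t`.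
-/

namespace Pool.Agent.Results.MP_2fc053_co.FixedRatio

/-- A veto interval: a closed interval `[l, r]` of the real line with an interior point `v`, its
veto mark. -/
structure VetoInterval where
  /-- left endpoint -/
  l : ℝ
  /-- veto mark -/
  v : ℝ
  /-- right endpoint -/
  r : ℝ
  l_lt_v : l < v
  v_lt_r : v < r

/-- The adjacency condition for two veto intervals `a` and `b`:
`a_v < b_l < a_r < b_v` or `b_v < a_l < b_r < a_v`. -/
def VetoAdj (a b : VetoInterval) : Prop :=
  (a.v < b.l ∧ b.l < a.r ∧ a.r < b.v) ∨ (b.v < a.l ∧ a.l < b.r ∧ b.r < a.v)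

/-- `G` is a veto interval graph of ratio `t`: there is an injective assignment of veto intervals to
the vertices such that all veto marks divide their intervals in the ratio `t`, that is,
`v = (1 - t) l + t r`, and two distinct vertices are adjacent exactly when their veto intervals
satisfy the adjacency condition `VetoAdj`. -/
def IsRatioVetoGraph {V : Type} (t : ℝ) (G : SimpleGraph V) : Prop :=
  ∃ I : V → VetoInterval, Function.Injective I ∧
    (∀ a : V, (I a).v = (1 - t) * (I a).l + t * (I a).r) ∧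
    ∀ a b : V, a ≠ b → (G.Adj a b ↔ VetoAdj (I a) (I b))

/-- the vertex set of the shift graph -/
abbrev SV (N : ℕ) : Type := {p : Fin N × Fin N // p.1 < p.2}

/-- the shift graph -/
def shiftG (N : ℕ) : SimpleGraph (SV N) where
  Adj p q := p.1.2 = q.1.1 ∨ q.1.2 = p.1.1
  symm := ⟨fun p q h => h.symm⟩
  loopless := ⟨fun p h => by
    rcases h with h | h
    · exact absurd h.symm (ne_of_lt p.2)
    · exact absurd h.symm (ne_of_lt p.2)⟩

theorem gap {M i j : ℕ} (hM : 1 ≤ M) (hij : i < j) : (M : ℝ) - 1 ≤ (M : ℝ) ^ j - (M : ℝ) ^ i := by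
  have h1 : (1 : ℝ) ≤ M := by exact_mod_cast hM
  have h2 : (M : ℝ) ^ (i + 1) ≤ (M : ℝ) ^ j := pow_le_pow_right₀ h1 hij
  have h3 : (1 : ℝ) ≤ (M : ℝ) ^ i := one_le_pow₀ h1
  have h4 : (M : ℝ) ^ (i + 1) = (M : ℝ) ^ i * M := pow_succ _ _
  nlinarith

/-- the representation -/
noncomputable def rep (t : ℝ) (ht0 : 0 < t) (ht1 : t < 1) (M : ℕ) (hM : 1 ≤ M) (N : ℕ) (p : SV N) :
    VetoInterval where
  l := (M : ℝ) ^ (p.1.1 : ℕ)
  v := (1 - t) * (M : ℝ) ^ (p.1.1 : ℕ) + t * ((M : ℝ) ^ (p.1.2 : ℕ) + 1)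
  r := (M : ℝ) ^ (p.1.2 : ℕ) + 1
  l_lt_v := by
    have h := gap hM (i := (p.1.1 : ℕ)) (j := (p.1.2 : ℕ)) p.2
    have h1 : (1 : ℝ) ≤ M := by exact_mod_cast hM
    nlinarith
  v_lt_r := by
    have h := gap hM (i := (p.1.1 : ℕ)) (j := (p.1.2 : ℕ)) p.2
    have h1 : (1 : ℝ) ≤ M := by exact_mod_cast hM
    nlinarith

theorem key {t : ℝ} (ht0 : 0 < t) (ht1 : t < 1) {M : ℕ} (hM : 2 ≤ M) (hM1 : 1 < t * M)
    (hM2 : t < (1 - t) * (M - 1)) {a b c d : ℕ} (hab : a < b) (hcd : c < d) :
    (((1 - t) * (M : ℝ) ^ a + t * ((M : ℝ) ^ b + 1) < (M : ℝ) ^ c ∧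
      (M : ℝ) ^ c < (M : ℝ) ^ b + 1 ∧
      (M : ℝ) ^ b + 1 < (1 - t) * (M : ℝ) ^ c + t * ((M : ℝ) ^ d + 1))) ↔ b = c := by
  have hMr : (2 : ℝ) ≤ M := by exact_mod_cast hM
  have hMr1 : (1 : ℝ) < M := by linarith
  constructor
  · rintro ⟨h1, h2, -⟩
    by_contra hne
    rcases lt_or_gt_of_ne hne with h | h
    · have := gap (M := M) (by omega) h
      linarith
    · -- `c < b`
      have h3 : (M : ℝ) ^ (c + 1) ≤ (M : ℝ) ^ b := pow_le_pow_right₀ hMr1.le h
      have h4 : (M : ℝ) ^ (c + 1) = (M : ℝ) ^ c * M := pow_succ _ _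
      have h5 : (0 : ℝ) < (M : ℝ) ^ c := by positivity
      have h6 : (0 : ℝ) < (M : ℝ) ^ a := by positivity
      have h7 : (M : ℝ) ^ c < t * ((M : ℝ) ^ c * M) := by nlinarith
      have h8 : t * ((M : ℝ) ^ c * M) ≤ t * (M : ℝ) ^ b := by
        rw [← h4]; exact mul_le_mul_of_nonneg_left h3 ht0.le
      have h9 : 0 < (1 - t) * (M : ℝ) ^ a := mul_pos (by linarith) h6
      nlinarith
  · rintro rfl
    have g1 := gap (M := M) (by omega) hab
    have g2 := gap (M := M) (by omega) hcd
    refine ⟨?_, by linarith, ?_⟩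
    · have : (1 - t) * ((M : ℝ) - 1) ≤ (1 - t) * ((M : ℝ) ^ b - (M : ℝ) ^ a) :=
        mul_le_mul_of_nonneg_left g1 (by linarith)
      nlinarith
    · have : t * ((M : ℝ) - 1) ≤ t * ((M : ℝ) ^ d - (M : ℝ) ^ b) :=
        mul_le_mul_of_nonneg_left g2 ht0.le
      nlinarith

theorem shift_veto {t : ℝ} (ht0 : 0 < t) (ht1 : t < 1) (N : ℕ) :
    IsRatioVetoGraph t (shiftG N) := by
  obtain ⟨M, hM⟩ := exists_nat_gt (max (max 2 (1 / t)) (t / (1 - t) + 1))
  have hMa : (2 : ℝ) < M := lt_of_le_of_lt ((le_max_left _ _).trans (le_max_left _ _)) hM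
  have hMb : 1 / t < M := lt_of_le_of_lt ((le_max_right _ _).trans (le_max_left _ _)) hM
  have hMc : t / (1 - t) + 1 < M := lt_of_le_of_lt (le_max_right _ _) hM
  have hM2 : 2 ≤ M := by
    have : (2 : ℝ) < M := hMa
    exact_mod_cast this.le
  have hM1 : 1 < t * M := by
    rw [div_lt_iff₀ ht0] at hMb
    linarith
  have hM3 : t < (1 - t) * (M - 1) := by
    have : t / (1 - t) < M - 1 := by linarith
    rw [div_lt_iff₀ (by linarith)] at this
    linarith
  have hMr1 : (1 : ℝ) < M := by linarith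
  refine ⟨rep t ht0 ht1 M (by omega) N, ?_, fun a => rfl, ?_⟩
  · intro p q h
    have hl : (rep t ht0 ht1 M (by omega) N p).l = (rep t ht0 ht1 M (by omega) N q).l := by rw [h]
    have hr : (rep t ht0 ht1 M (by omega) N p).r = (rep t ht0 ht1 M (by omega) N q).r := by rw [h]
    simp only [rep] at hl hr
    have hl'' : (p.1.1 : ℕ) = (q.1.1 : ℕ) := pow_right_injective₀ (by linarith) hMr1.ne' hl
    have hr'' : (p.1.2 : ℕ) = (q.1.2 : ℕ) :=
      pow_right_injective₀ (by linarith) hMr1.ne' (by linarith : (M : ℝ) ^ _ = (M : ℝ) ^ _)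
    exact Subtype.ext (Prod.ext (Fin.ext hl'') (Fin.ext hr''))
  · intro p q _
    have h1 := key ht0 ht1 hM2 hM1 hM3 (a := (p.1.1 : ℕ)) (b := (p.1.2 : ℕ)) (c := (q.1.1 : ℕ))
      (d := (q.1.2 : ℕ)) p.2 q.2
    have h2 := key ht0 ht1 hM2 hM1 hM3 (a := (q.1.1 : ℕ)) (b := (q.1.2 : ℕ)) (c := (p.1.1 : ℕ))
      (d := (p.1.2 : ℕ)) q.2 p.2
    unfold VetoAdj
    simp only [rep]
    rw [h1, h2, Fin.val_inj, Fin.val_inj]
    rfl

/-- a proper colouring with `k` colours gives an injection of the ground set into the subsets of the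
set of colours -/
theorem shift_lower {N k : ℕ} (h : (shiftG N).Colorable k) : N ≤ 2 ^ k := by
  classical
  obtain ⟨c⟩ := h
  let S : Fin N → Finset (Fin k) := fun i =>
    Finset.univ.filter (fun t => ∃ p : SV N, p.1.1 = i ∧ c p = t)
  have hinj : Function.Injective S := by
    intro i j hij
    by_contra hne
    wlog hlt : i < j generalizing i j
    · exact this hij.symm (Ne.symm hne) (lt_of_le_of_ne (not_lt.mp hlt) (Ne.symm hne))
    have hm : c (⟨(i, j), hlt⟩ : SV N) ∈ S i := by
      simp only [S, Finset.mem_filter, Finset.mem_univ, true_and]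
      exact ⟨⟨(i, j), hlt⟩, rfl, rfl⟩
    rw [hij] at hm
    simp only [S, Finset.mem_filter, Finset.mem_univ, true_and] at hm
    obtain ⟨p, hp, hc⟩ := hm
    have hadj : (shiftG N).Adj (⟨(i, j), hlt⟩ : SV N) p := Or.inl hp.symm
    exact c.valid hadj hc.symm
  have := Fintype.card_le_of_injective S hinj
  simpa using this

/-- the shift graph on at most `2 ^ k` points has a proper colouring with `k` colours -/
theorem shift_upper {N k : ℕ} (h : N ≤ 2 ^ k) : (shiftG N).Colorable k := by
  classical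
  have hbit : ∀ p : SV N, ∃ t : Fin k,
      (p.1.1 : ℕ).testBit t = false ∧ (p.1.2 : ℕ).testBit t = true := by
    intro p
    by_contra hcon
    push Not at hcon
    have hlt : (p.1.1 : ℕ) < (p.1.2 : ℕ) := p.2
    have hand : (p.1.2 : ℕ) &&& (p.1.1 : ℕ) = (p.1.2 : ℕ) := by
      apply Nat.eq_of_testBit_eq
      intro t
      rw [Nat.testBit_and]
      by_cases ht : t < k
      · have h1 := hcon ⟨t, ht⟩
        simp only at h1
        cases hb : (p.1.1 : ℕ).testBit t
        · have h2 := h1 hb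
          simpa using h2
        · simp
      · push Not at ht
        have h3 : (p.1.2 : ℕ) < 2 ^ t :=
          lt_of_lt_of_le p.1.2.2 (h.trans (Nat.pow_le_pow_right (by norm_num) ht))
        rw [Nat.testBit_lt_two_pow h3]
        simp
    have hle : (p.1.2 : ℕ) &&& (p.1.1 : ℕ) ≤ (p.1.1 : ℕ) := Nat.and_le_right
    omega
  choose c hc1 hc2 using hbit
  refine ⟨SimpleGraph.Coloring.mk c ?_⟩
  intro p q hpq heq
  rcases hpq with h | h
  · have h1 := hc2 p
    have h2 := hc1 q
    rw [h, heq, h2] at h1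
    exact absurd h1 (by decide)
  · have h1 := hc2 q
    have h2 := hc1 p
    rw [h, ← heq, h2] at h1
    exact absurd h1 (by decide)

/-- For every `t` with `0 < t < 1` and every natural number `k` there is a finite veto interval graph
of ratio `t` (for `t = 1/2`: with all veto marks at the midpoints) of chromatic number `k`. -/
theorem result (t : ℝ) (ht0 : 0 < t) (ht1 : t < 1) (k : ℕ) :
    ∃ (V : Type) (_ : Finite V) (G : SimpleGraph V),
      IsRatioVetoGraph t G ∧ G.chromaticNumber = k := by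
  rcases Nat.eq_zero_or_pos k with rfl | hk
  · refine ⟨SV 0, inferInstance, shiftG 0, shift_veto ht0 ht1 0, ?_⟩
    have : (shiftG 0).Colorable 0 := shift_upper (by norm_num)
    have := this.chromaticNumber_le
    simp at this ⊢
  · refine ⟨SV (2 ^ (k - 1) + 1), inferInstance, shiftG _, shift_veto ht0 ht1 _, ?_⟩
    have hpow : 2 ^ k = 2 ^ (k - 1) + 2 ^ (k - 1) := by
      obtain ⟨m, rfl⟩ : ∃ m, k = m + 1 := ⟨k - 1, by omega⟩
      simp [pow_succ, mul_two]
    have hpos : 0 < 2 ^ (k - 1) := by positivity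
    have hcol : (shiftG (2 ^ (k - 1) + 1)).Colorable k := shift_upper (by omega)
    apply le_antisymm hcol.chromaticNumber_le
    apply SimpleGraph.le_chromaticNumber_iff_colorable.mpr
    intro m hm
    have h1 := shift_lower hm
    by_contra hlt
    push Not at hlt
    have hmk : m ≤ k - 1 := by
      have : m < k := by exact_mod_cast hlt
      omega
    have h2 : 2 ^ m ≤ 2 ^ (k - 1) := Nat.pow_le_pow_right (by norm_num) hmk
    omega

end Pool.Agent.Results.MP_2fc053_co.FixedRatio
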